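import Pool.Agent.Helper5.WD.Stmts

/-! # GF1: adding a set of vertices -/

set_option autoImplicit false

open Finset Pool.Agent.Helper8.UN Pool.Agent.Helper5.FV

namespace Pool.Agent.Helper5.WD

theorem st_GF1 (hCNT : ST_CNT) : ST_GF1 := by
  intro n D k0 k E W U hT hD hk hWU
  induction U using Finset.induction_on with
  | empty => simp
  | insert v U hv ih =>
    have hWU' : Disjoint W U := Finset.disjoint_of_subset_right (Finset.subset_insert _ _) hWU
    have hvW : v ∉ W := fun h => (Finset.disjoint_left.1 hWU) h (Finset.mem_insert_self _ _)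
    obtain ⟨i1, i2, i3⟩ := ih hWU'
    have hmem : v ∈ W ∪ insert v U := by simp
    have her : (W ∪ insert v U).erase v = W ∪ U := by
      ext w
      simp only [Finset.mem_erase, Finset.mem_union, Finset.mem_insert]
      constructor
      · rintro ⟨h1, h2 | h2 | h2⟩
        · exact Or.inl h2
        · exact absurd h2 h1
        · exact Or.inr h2
      · rintro (h | h)
        · exact ⟨fun e => hvW (e ▸ h), Or.inl h⟩
        · exact ⟨fun e => hv (e ▸ h), Or.inr (Or.inr h)⟩
    obtain ⟨c1, _⟩ := hCNT n k E (W ∪ insert v U) v hT hmem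
    obtain ⟨g1, g2⟩ := hD k hk (W ∪ insert v U) v hmem
    rw [her] at c1 g1 g2
    rw [Finset.card_insert_of_notMem hv, pow_succ, pow_succ]
    refine ⟨?_, ?_, ?_⟩
    · calc (k - D) ^ U.card * (k - D) * PP E W k = (k - D) * ((k - D) ^ U.card * PP E W k) := by
            ring
        _ ≤ (k - D) * PP E (W ∪ U) k := Nat.mul_le_mul_left _ i1
        _ ≤ PP E (W ∪ insert v U) k := g1
    · calc PP E (W ∪ insert v U) k
          = ∑ f ∈ CC E (W ∪ U) k, (k - bk E (W ∪ insert v U) k f v) := c1
        _ ≤ ∑ f ∈ CC E (W ∪ U) k, k := Finset.sum_le_sum fun f _ => Nat.sub_le _ _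
        _ = k * PP E (W ∪ U) k := by rw [Finset.sum_const, smul_eq_mul, mul_comm]; rfl
        _ ≤ k * (k ^ U.card * PP E W k) := Nat.mul_le_mul_left _ i2
        _ = k ^ U.card * k * PP E W k := by ring
    · calc (k - D) ^ U.card * (k - D) * AA E W k = (k - D) * ((k - D) ^ U.card * AA E W k) := by
            ring
        _ ≤ (k - D) * AA E (W ∪ U) k := Nat.mul_le_mul_left _ i3
        _ ≤ AA E (W ∪ insert v U) k := g2

end Pool.Agent.Helper5.WD
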